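import Pool.Agent.Lib.helper18.Jac7

open MeasureTheory Filter Topology

namespace Pool.Agent.Results.MP_4d2d01_an.NullSet

/-- Logarithmic potential of `μ` at `z` (exact while all distances are at most 1). -/
noncomputable def potential (μ : Measure ℝ) (z : ℂ) : ENNReal :=
  ∫⁻ y : ℝ, (if z = y then ⊤ else ENNReal.ofReal (Real.log (1 / ‖z - y‖))) ∂μ

/-- Logarithmic energy. -/
noncomputable def energy (μ : Measure ℝ) : ENNReal := ∫⁻ x : ℝ, potential μ x ∂μ

/-- The shifts of the pair of sequences are totally bounded in the sup metric. -/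
def AlmostPeriodic (a b : ℤ → ℝ) : Prop :=
  ∀ ε : ℝ, 0 < ε → ∃ T : Finset ℤ, ∀ k : ℤ, ∃ t ∈ T, ∀ n : ℤ,
    |a (n + k) - a (n + t)| ≤ ε ∧ |b (n + k) - b (n + t)| ≤ ε

open H18Jac H18Cantor

lemma pot_eq (μ : Measure ℝ) (z : ℂ) :
    potential μ z = ∫⁻ y : ℝ, H18Widom.k 1 ‖z - y‖ 0 ∂μ := by
  simp [potential, H18Widom.k, sub_eq_zero]

lemma en (ν : Measure ℝ) : energy ν = H18Widom.En 1 ν ν := by
  simp only [energy, potential, H18Widom.En, H18Widom.U, H18Widom.k, ← Complex.ofReal_sub,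
    Complex.norm_real, Complex.ofReal_inj, Real.norm_eq_abs]

theorem result : ∃ (K : Set ℝ) (μ : Measure ℝ) (p : ℕ → Polynomial ℝ),
    IsCompact K ∧ K ⊆ Set.Icc (-1 / 4) (1 / 4) ∧ volume K = 0 ∧
    IsProbabilityMeasure μ ∧ μ Kᶜ = 0 ∧ energy μ < ⊤ ∧
    (∀ ν : Measure ℝ, IsProbabilityMeasure ν → ν Kᶜ = 0 → energy μ ≤ energy ν) ∧
    (∀ x ∈ K, Tendsto (potential μ) (𝓝 (x : ℂ)) (𝓝 (energy μ))) ∧
    (∀ n, (p n).natDegree = n ∧ 0 < (p n).leadingCoeff) ∧
    (∀ m n, ∫ x, (p m).eval x * (p n).eval x ∂μ = if m = n then 1 else 0) ∧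
    ¬ ∃ a b : ℤ → ℝ, AlmostPeriodic a b ∧
      Tendsto (fun n : ℕ => |∫ x, x * (p n).eval x * (p (n + 1)).eval x ∂μ - a (n + 1)| +
        |∫ x, x * (p n).eval x * (p n).eval x ∂μ - b (n + 1)|) atTop (𝓝 0) := by
  obtain ⟨φ, s, h0⟩ := exists_null
  have h8 : (8 : ℝ) ≠ 0 := by norm_num
  have hm := emb s (j := fun x : ℝ => x / 8) (by fun_prop) (fun x y h => by linarith)
  set μ := (P fair).map fun e => φ 0 e / 8 with hμ
  have : IsProbabilityMeasure μ := Measure.isProbabilityMeasure_map hm.measurable.aemeasurable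
  have hK : μ (Set.range fun e => φ 0 e / 8)ᶜ = 0 := by rw [hm.map_apply]; simp
  have hc := s.cont 0
  have hKc : IsCompact (Set.range fun e => φ 0 e / 8) := isCompact_range (by fun_prop)
  obtain ⟨E, hE, hU⟩ := pot s fair_eq (D := 8) (by norm_num)
  have hU' : ∀ x ∈ Set.range fun e => φ 0 e / 8, H18Widom.U 1 μ x = E := by
    rintro _ ⟨x, rfl⟩
    rw [H18Widom.U, hμ, hm.lintegral_map, ← hU x]
    refine lintegral_congr fun y => ?_
    simp only [H18Widom.k]
    rw [← sub_div, abs_div, abs_of_pos (show (0 : ℝ) < 8 by norm_num), one_div_div]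
    congr 1
    rw [div_left_inj' h8]
  have hmin := fun (ν : Measure ℝ) (_ : IsProbabilityMeasure ν) hν =>
    H18Widom.minimal (K := Set.range fun e => φ 0 e / 8) one_pos (by
      rintro _ ⟨x, rfl⟩ _ ⟨y, rfl⟩
      rw [← sub_div, abs_div, abs_of_pos (show (0 : ℝ) < 8 by norm_num)]
      linarith [s.diam 0 x y]) μ ν hK hν hE hU'
  have e0 := (hmin μ this hK).1
  have hq : (Polynomial.C 8 * Polynomial.X + Polynomial.C 0 : Polynomial ℝ).natDegree = 1 :=
    Polynomial.natDegree_linear h8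
  have ev : ∀ n e, ((q φ n).comp (Polynomial.C 8 * Polynomial.X + Polynomial.C 0)).eval
      (φ 0 e / 8) = (q φ n).eval (φ 0 e) := by
    intro n e
    simp only [Polynomial.eval_comp, Polynomial.eval_add, Polynomial.eval_mul, Polynomial.eval_C,
      Polynomial.eval_X]
    congr 1
    ring
  refine ⟨_, μ, fun n => (q φ n).comp (Polynomial.C 8 * Polynomial.X + Polynomial.C 0), hKc, ?_, h0,
    this, hK, by rw [en, e0]; exact hE.lt_top, fun ν hν h => by rw [en, en]; exact (hmin ν hν h).2,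
    fun x hx => ?_, fun n => ?_, fun m n => ?_, ?_⟩
  · rintro _ ⟨e, rfl⟩
    have := abs_le.1 (s.le 0 e)
    constructor <;> linarith
  · rw [en, e0, funext (pot_eq μ)]
    refine regular (fun y => ?_) (hU' x hx)
    rw [← e0]
    exact H18Widom.frostman hKc one_pos hK (by rw [e0]; exact hE.lt_top)
      (fun ν hν h => (hmin ν hν h).2) y
  · rw [Polynomial.natDegree_comp, Polynomial.leadingCoeff_comp (by rw [hq]; norm_num), hq,
      (q_deg s n).1, Polynomial.leadingCoeff_linear h8]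
    exact ⟨mul_one _, mul_pos (q_deg s n).2 (by positivity)⟩
  · rw [hμ, hm.integral_map]
    simp only [ev]
    exact q_orth s m n
  · rintro ⟨a, b, h1, h2⟩
    refine not_ap (κ := 1 / 8) (by norm_num) _ (fun n => ?_) (fun n => a (n + 1)) (fun e he => ?_)
      (squeeze_zero_norm (fun n => le_add_of_nonneg_right (abs_nonneg _)) h2)
    · rw [hμ, hm.integral_map, ← q_x s n, ← integral_const_mul]
      simp only [ev]
      congr 1
      funext e
      ring
    · obtain ⟨T, hT⟩ := h1 (e / 4) (by positivity)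
      choose t ht1 ht2 using hT
      obtain ⟨i, j, hij, h⟩ := Finite.exists_ne_map_eq_of_infinite fun k => (⟨t k, ht1 k⟩ : T)
      have h' : t i = t j := congrArg Subtype.val h
      wlog hl : i < j generalizing i j
      · exact this j i hij.symm h.symm h'.symm (by omega)
      refine ⟨j - i, by omega, fun n => ?_⟩
      have a1 := abs_le.1 (ht2 i (n + 1 - i)).1
      have a2 := abs_le.1 (ht2 j (n + 1 - i)).1
      rw [h', sub_add_cancel] at a1
      rw [show n + 1 - i + j = n + (j - i) + 1 by ring] at a2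
      rw [abs_lt]
      constructor <;> linarith

end Pool.Agent.Results.MP_4d2d01_an.NullSet
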